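import Pool.Agent.H88.B2.Targets

/-!
MP_ee74d2_an, board bpd_modules, row DI1: a plank of width `w` crosses a tube of width `w` and
length `w²` transversally.
-/

set_option autoImplicit false

namespace Pool.Agent.H26.B2.DI1

open MeasureTheory Set
open Pool.Agent.H83.G Pool.Agent.H88.B2
open scoped ENNReal NNReal RealInnerProductSpace

variable {m : ℕ}

theorem inv_slow (N : ℕ) {a a' D ρ : ℝ} (ha : 0 ≤ a) (ha' : 0 ≤ a') (hD : 1 ≤ D) (hρ : 0 ≤ ρ)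
    (h : a' ≤ a + D * ρ) :
    ((1 + a) ^ N)⁻¹ ≤ D ^ N * (1 + ρ) ^ N * ((1 + a') ^ N)⁻¹ := by
  have h1 : 1 + a' ≤ D * (1 + ρ) * (1 + a) := by nlinarith [mul_nonneg (by linarith : 0 ≤ D) (mul_nonneg hρ ha), mul_nonneg (by linarith : 0 ≤ D - 1) ha]
  have h2 : (1 + a') ^ N ≤ D ^ N * (1 + ρ) ^ N * (1 + a) ^ N := by
    rw [← mul_pow, ← mul_pow]
    exact pow_le_pow_left₀ (by linarith) h1 N
  have p1 : 0 < (1 + a) ^ N := by positivity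
  have p2 : 0 < (1 + a') ^ N := by positivity
  rw [← div_eq_mul_inv, le_div_iff₀ p2, inv_mul_le_iff₀ p1]
  linarith

/-- the first factor: `a` is the coordinate at `y`, `a0 / w` the one at `u` at width `w²` -/
theorem first_factor (N : ℕ) (hN : 2 ≤ N) {a a0 w ρ : ℝ} (hw : 1 ≤ w) (hρ : 0 ≤ ρ)
    (h : |a0| / w ≤ |a| / w + 57 * ρ) :
    ((1 + |a|) ^ N)⁻¹ ≤ 2 * 57 ^ N * (1 + ρ) ^ N * (w⁻¹ + ((1 + |a|) ^ 2)⁻¹) *
      ((1 + |a0| / w) ^ N)⁻¹ := by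
  have hw0 : 0 < w := by linarith
  have hwi : w⁻¹ ≤ 1 := inv_le_one_of_one_le₀ hw
  have hwi0 : 0 < w⁻¹ := by positivity
  have ha : 0 ≤ |a| := abs_nonneg a
  have ha0 : 0 ≤ |a0| := abs_nonneg a0
  set t : ℝ := (1 + |a| / w) / (1 + |a|) with ht
  have t0 : 0 ≤ t := by positivity
  have haw : |a| / w = |a| * w⁻¹ := div_eq_mul_inv _ _
  have t1 : t ≤ 1 := by
    rw [ht, div_le_one (by positivity), haw]
    nlinarith
  have t2 : t ≤ w⁻¹ + (1 + |a|)⁻¹ := by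
    rw [ht, div_le_iff₀ (by positivity), haw, add_mul, inv_mul_cancel₀ (by positivity)]
    nlinarith
  have t3 : t ^ N ≤ 2 * (w⁻¹ + ((1 + |a|) ^ 2)⁻¹) := by
    have e1 : t ^ N ≤ t ^ 2 := pow_le_pow_of_le_one t0 t1 hN
    have e2 : t ^ 2 ≤ (w⁻¹ + (1 + |a|)⁻¹) ^ 2 := pow_le_pow_left₀ t0 t2 2
    have e3 : (w⁻¹ + (1 + |a|)⁻¹) ^ 2 ≤ 2 * (w⁻¹ ^ 2 + (1 + |a|)⁻¹ ^ 2) := by
      nlinarith [sq_nonneg (w⁻¹ - (1 + |a|)⁻¹)]
    have e4 : w⁻¹ ^ 2 ≤ w⁻¹ := by nlinarith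
    rw [inv_pow] at e3 e4
    rw [inv_pow] at e3
    linarith
  have k1 : 1 + |a0| / w ≤ 57 * (1 + ρ) * (1 + |a| / w) := by
    have : 0 ≤ |a| / w := by positivity
    nlinarith [mul_nonneg hρ this]
  have k2 : (1 + |a0| / w) ^ N ≤ 57 ^ N * (1 + ρ) ^ N * (1 + |a| / w) ^ N := by
    rw [← mul_pow, ← mul_pow]
    exact pow_le_pow_left₀ (by positivity) k1 N
  have k3 : (1 + |a| / w) ^ N = t ^ N * (1 + |a|) ^ N := by
    rw [← mul_pow, ht, div_mul_cancel₀ _ (by positivity)]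
  have p1 : 0 < (1 + |a|) ^ N := by positivity
  have p2 : 0 < (1 + |a0| / w) ^ N := by positivity
  rw [← div_eq_mul_inv _ ((1 + |a0| / w) ^ N), le_div_iff₀ p2, inv_mul_le_iff₀ p1]
  calc (1 + |a0| / w) ^ N ≤ 57 ^ N * (1 + ρ) ^ N * (t ^ N * (1 + |a|) ^ N) := by rw [← k3]; exact k2
    _ ≤ 57 ^ N * (1 + ρ) ^ N * ((2 * (w⁻¹ + ((1 + |a|) ^ 2)⁻¹)) * (1 + |a|) ^ N) := by
        gcongr
    _ = _ := by ring

theorem comp_le (x : Z m) : |x.1| ≤ ‖x‖ ∧ ‖x.2.1‖ ≤ ‖x‖ ∧ |x.2.2| ≤ ‖x‖ := by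
  refine ⟨?_, ?_, ?_⟩
  · rw [← Real.norm_eq_abs]; exact norm_fst_le x
  · exact (norm_fst_le x.2).trans (norm_snd_le x)
  · rw [← Real.norm_eq_abs]; exact (norm_snd_le x.2).trans (norm_snd_le x)

/-- the bound of the first component -/
theorem Lo1_le (θ : E m) (s w : ℝ) (hw : 1 ≤ w) (hθ : ‖θ‖ ≤ 7) (x : Z m) :
    |(Lo (w • θ) s x).1| ≤ 57 * w ^ 2 * ‖x‖ := by
  have hw0 : 0 < w := by linarith
  have h : (Lo (w • θ) s x).1 = x.1 + ⟪x.2.1, w • θ⟫ + x.2.2 * ‖w • θ‖ ^ 2 := rfl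
  obtain ⟨c1, c2, c3⟩ := comp_le x
  have hx : 0 ≤ ‖x‖ := norm_nonneg x
  have hn : ‖w • θ‖ ≤ 7 * w := by
    rw [norm_smul, Real.norm_eq_abs, abs_of_pos hw0]; nlinarith
  have hn0 : 0 ≤ ‖w • θ‖ := norm_nonneg _
  rw [h]
  have h1 := abs_real_inner_le_norm x.2.1 (w • θ)
  have h2 : |x.2.2 * ‖w • θ‖ ^ 2| = |x.2.2| * ‖w • θ‖ ^ 2 := by
    rw [abs_mul, abs_of_nonneg (by positivity : 0 ≤ ‖w • θ‖ ^ 2)]
  have h3 := abs_add_le (x.1 + ⟪x.2.1, w • θ⟫) (x.2.2 * ‖w • θ‖ ^ 2)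
  have h4 := abs_add_le x.1 ⟪x.2.1, w • θ⟫
  have h5 : ‖x.2.1‖ * ‖w • θ‖ ≤ ‖x‖ * (7 * w) := mul_le_mul c2 hn hn0 hx
  have h6 : |x.2.2| * ‖w • θ‖ ^ 2 ≤ ‖x‖ * (49 * w ^ 2) := by
    apply mul_le_mul c3 _ (by positivity) hx
    nlinarith
  have hw2 : w ≤ w ^ 2 := by nlinarith
  have h7 : 1 * ‖x‖ ≤ w ^ 2 * ‖x‖ := mul_le_mul_of_nonneg_right (by linarith) hx
  have h8 : w * ‖x‖ ≤ w ^ 2 * ‖x‖ := mul_le_mul_of_nonneg_right hw2 hx
  nlinarith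

/-- the bound of the second component -/
theorem Lo2_le (θ : E m) (s w : ℝ) (hs : 0 ≤ s) (hs1 : s * w ^ 2 ≤ 1) (hw : 1 ≤ w) (hθ : ‖θ‖ ≤ 7)
    (x : Z m) : ‖(Lo (w • θ) (w * s) x).2‖ ≤ 15 * ‖x‖ := by
  have hw0 : 0 < w := by linarith
  obtain ⟨c1, c2, c3⟩ := comp_le x
  have hx : 0 ≤ ‖x‖ := norm_nonneg x
  have hn : ‖w • θ‖ ≤ 7 * w := by
    rw [norm_smul, Real.norm_eq_abs, abs_of_pos hw0]; nlinarith
  have hn0 : 0 ≤ ‖w • θ‖ := norm_nonneg _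
  have hws : 0 ≤ w * s := by positivity
  have hws1 : w * s ≤ 1 := by nlinarith
  rw [Prod.norm_def]
  apply max_le
  · have h : (Lo (w • θ) (w * s) x).2.1 = (w * s) • (x.2.1 + (2 * x.2.2) • (w • θ)) := rfl
    rw [h, norm_smul, Real.norm_eq_abs, abs_of_nonneg hws]
    have e1 : ‖x.2.1 + (2 * x.2.2) • (w • θ)‖ ≤ 15 * w * ‖x‖ := by
      refine (norm_add_le _ _).trans ?_
      rw [norm_smul (2 * x.2.2), Real.norm_eq_abs, abs_mul, abs_of_nonneg (by norm_num : (0 : ℝ) ≤ 2)]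
      have : |x.2.2| * ‖w • θ‖ ≤ ‖x‖ * (7 * w) := mul_le_mul c3 hn hn0 hx
      nlinarith
    calc w * s * ‖x.2.1 + (2 * x.2.2) • (w • θ)‖ ≤ w * s * (15 * w * ‖x‖) :=
          mul_le_mul_of_nonneg_left e1 hws
      _ = 15 * (s * w ^ 2) * ‖x‖ := by ring
      _ ≤ 15 * 1 * ‖x‖ := by gcongr
      _ = _ := by ring
  · have h : (Lo (w • θ) (w * s) x).2.2 = (w * s) ^ 2 * x.2.2 := rfl
    rw [h, Real.norm_eq_abs, abs_mul, abs_of_nonneg (by positivity : 0 ≤ (w * s) ^ 2)]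
    have e1 : (w * s) ^ 2 ≤ 1 := pow_le_one₀ hws hws1
    have e2 : (w * s) ^ 2 * |x.2.2| ≤ 1 * ‖x‖ := mul_le_mul e1 c3 (abs_nonneg _) (by norm_num)
    linarith

theorem sR_pos {R : ℝ} (hR : 1 ≤ R) : 0 < sR R := by
  unfold sR
  have : 0 < Real.sqrt R := Real.sqrt_pos.2 (by linarith)
  positivity

theorem rpow_neg_le_one {R δ : ℝ} (hR : 1 ≤ R) (hδ : 0 ≤ δ) : R ^ (-δ) ≤ 1 :=
  Real.rpow_le_one_of_one_le_of_nonpos hR (by linarith)

theorem fc_sub (hLOA : T_LOA) (R δ : ℝ) (k : Fin m → ℤ) (z z' : Z m) :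
    fc R δ k z - fc R δ k z' = R ^ (-δ) • Lo (ctr (sR R) k) (sR R) (z - z') := by
  unfold fc
  rw [((hLOA m).1 _ _ z z').2.1, smul_sub]

/-- the coordinate of `Lo_k` in the coordinates of the tube -/
theorem Lo_comp (hLOA : T_LOA) (c η : E m) (s w : ℝ) (hw : 0 < w) (z : Z m) :
    Lo c s z = Lo (w • (c - η)) (w * s) (Lo η w⁻¹ z) := by
  rw [((hLOA m).2.2.2.1 η (w • (c - η)) w⁻¹ (w * s) z).1]
  congr 1
  · rw [smul_smul, inv_mul_cancel₀ hw.ne', one_smul]; abel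
  · rw [← mul_assoc, inv_mul_cancel₀ hw.ne', one_mul]

/-- the pointwise bound -/
theorem pointwise (hLOA : T_LOA) (N N₂ : ℕ) (hN : 2 ≤ N) (hN₂ : 2 * N + m + 3 ≤ N₂)
    (R δ w : ℝ) (η : E m) (W : Pk m) (u y : Z m) (hR : 1 ≤ R) (hδ : 0 ≤ δ) (hw : 1 ≤ w)
    (hwR : w ^ 2 ≤ Real.sqrt R) (hη : ‖η‖ ≤ 4) (hc : ‖ctr (sR R) W.1‖ ≤ 3) :
    ww N R δ w W y * wt N₂ (Lo η w⁻¹ (y - u)) ≤ 2 * 57 ^ N * 15 ^ N * ww N R δ (w ^ 2) W u *
      ((w⁻¹ + ((1 + |(R ^ δ / w) * (fc R δ W.1 u - zc W.2).1 +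
        w⁻¹ * (Lo (w • (ctr (sR R) W.1 - η)) (w * sR R) (Lo η w⁻¹ (y - u))).1|) ^ 2)⁻¹) *
        wt (m + 3) (Lo η w⁻¹ (y - u))) := by
  have hw0 : 0 < w := by linarith
  have hR0 : 0 < R := by linarith
  set x : Z m := Lo η w⁻¹ (y - u) with hx
  set θ : E m := ctr (sR R) W.1 - η with hθd
  have hθ : ‖θ‖ ≤ 7 := by
    refine (norm_sub_le _ _).trans ?_; linarith
  have hd : fc R δ W.1 y - fc R δ W.1 u = R ^ (-δ) • Lo (w • θ) (w * sR R) x := by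
    rw [fc_sub hLOA, Lo_comp hLOA (ctr (sR R) W.1) η (sR R) w hw0]
  have hs0 := (sR_pos hR).le
  have hs1 : sR R * w ^ 2 ≤ 1 := by
    have hq : 0 < Real.sqrt R := Real.sqrt_pos.2 hR0
    unfold sR
    rw [inv_mul_le_iff₀ hq]; linarith
  have hx0 : 0 ≤ ‖x‖ := norm_nonneg x
  set a0 : ℝ := (R ^ δ / w) * (fc R δ W.1 u - zc W.2).1 with ha0
  set a : ℝ := a0 + w⁻¹ * (Lo (w • θ) (w * sR R) x).1 with ha
  have hay : (R ^ δ / w) * (fc R δ W.1 y - zc W.2).1 = a := by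
    have h0 := congrArg Prod.fst hd
    simp only [Prod.fst_sub, Prod.smul_fst, smul_eq_mul] at h0
    have h3 : R ^ δ * R ^ (-δ) = 1 := by
      rw [← Real.rpow_add hR0]; simp
    have h4 : (fc R δ W.1 y - zc W.2).1 = (fc R δ W.1 u - zc W.2).1 +
        R ^ (-δ) * (Lo (w • θ) (w * sR R) x).1 := by
      simp only [Prod.fst_sub]; linarith
    rw [h4, ha, ha0, mul_add]
    congr 1
    calc R ^ δ / w * (R ^ (-δ) * (Lo (w • θ) (w * sR R) x).1)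
        = (R ^ δ * R ^ (-δ)) * w⁻¹ * (Lo (w • θ) (w * sR R) x).1 := by
          rw [div_eq_mul_inv]; ring
      _ = _ := by rw [h3, one_mul]
  have hau : (R ^ δ / w ^ 2) * (fc R δ W.1 u - zc W.2).1 = a0 / w := by
    rw [ha0]; field_simp
  have f1 : ((1 + |a|) ^ N)⁻¹ ≤ 2 * 57 ^ N * (1 + ‖x‖) ^ N * (w⁻¹ + ((1 + |a|) ^ 2)⁻¹) *
      ((1 + |a0| / w) ^ N)⁻¹ := by
    apply first_factor N hN hw hx0
    have g1 := Lo1_le θ (w * sR R) w hw hθ x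
    have g2 : |a0| ≤ |a| + w⁻¹ * |(Lo (w • θ) (w * sR R) x).1| := by
      have : a0 = a - w⁻¹ * (Lo (w • θ) (w * sR R) x).1 := by rw [ha]; ring
      rw [this]
      refine (abs_sub _ _).trans ?_
      rw [abs_mul, abs_of_pos (by positivity : 0 < w⁻¹)]
    rw [div_le_iff₀ hw0]
    have g3 : w⁻¹ * |(Lo (w • θ) (w * sR R) x).1| ≤ 57 * ‖x‖ * w := by
      rw [inv_mul_le_iff₀ hw0]
      refine g1.trans (le_of_eq ?_); ring
    rw [add_mul, div_mul_cancel₀ _ hw0.ne']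
    linarith
  have f2 : ((1 + ‖(fc R δ W.1 y - zc W.2).2‖) ^ N)⁻¹ ≤ 15 ^ N * (1 + ‖x‖) ^ N *
      ((1 + ‖(fc R δ W.1 u - zc W.2).2‖) ^ N)⁻¹ := by
    apply inv_slow N (norm_nonneg _) (norm_nonneg _) (by norm_num) hx0
    have e1 : (fc R δ W.1 u - zc W.2).2 = (fc R δ W.1 y - zc W.2).2 -
        R ^ (-δ) • (Lo (w • θ) (w * sR R) x).2 := by
      have h0 := congrArg Prod.snd hd
      simp only [Prod.snd_sub, Prod.smul_snd] at h0 ⊢
      rw [← h0]; abel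
    rw [e1]
    refine (norm_sub_le _ _).trans ?_
    gcongr
    rw [norm_smul, Real.norm_eq_abs, abs_of_nonneg (by positivity)]
    calc R ^ (-δ) * ‖(Lo (w • θ) (w * sR R) x).2‖
        ≤ 1 * ‖(Lo (w • θ) (w * sR R) x).2‖ :=
          mul_le_mul_of_nonneg_right (rpow_neg_le_one hR hδ) (norm_nonneg _)
      _ ≤ _ := by rw [one_mul]; exact Lo2_le θ (sR R) w hs0 hs1 hw hθ x
  have f3 : (1 + ‖x‖) ^ (2 * N) * wt N₂ x ≤ wt (m + 3) x := by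
    unfold wt
    have p1 : 0 < (1 + ‖x‖) ^ N₂ := by positivity
    have p2 : 0 < (1 + ‖x‖) ^ (m + 3) := by positivity
    rw [← div_eq_mul_inv, div_le_iff₀ p1, inv_mul_eq_div, le_div_iff₀ p2, ← pow_add]
    exact pow_le_pow_right₀ (by linarith) (by omega)
  have hwy : ww N R δ w W y = ((1 + |a|) ^ N)⁻¹ *
      ((1 + ‖(fc R δ W.1 y - zc W.2).2‖) ^ N)⁻¹ := by
    unfold ww; rw [hay]
  have hwu : ww N R δ (w ^ 2) W u = ((1 + |a0| / w) ^ N)⁻¹ *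
      ((1 + ‖(fc R δ W.1 u - zc W.2).2‖) ^ N)⁻¹ := by
    unfold ww; rw [hau, abs_div, abs_of_pos hw0]
  have hN₂0 : 0 ≤ wt N₂ x := by unfold wt; positivity
  rw [hwy]
  have p0 : 0 ≤ w⁻¹ + ((1 + |a|) ^ 2)⁻¹ := by positivity
  have pu : 0 ≤ ww N R δ (w ^ 2) W u := by unfold ww; positivity
  calc ((1 + |a|) ^ N)⁻¹ * ((1 + ‖(fc R δ W.1 y - zc W.2).2‖) ^ N)⁻¹ * wt N₂ x
      ≤ (2 * 57 ^ N * (1 + ‖x‖) ^ N * (w⁻¹ + ((1 + |a|) ^ 2)⁻¹) * ((1 + |a0| / w) ^ N)⁻¹) *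
        (15 ^ N * (1 + ‖x‖) ^ N * ((1 + ‖(fc R δ W.1 u - zc W.2).2‖) ^ N)⁻¹) * wt N₂ x := by
        gcongr
    _ = 2 * 57 ^ N * 15 ^ N * ww N R δ (w ^ 2) W u * ((w⁻¹ + ((1 + |a|) ^ 2)⁻¹) *
        ((1 + ‖x‖) ^ (2 * N) * wt N₂ x)) := by
        rw [hwu, two_mul N, pow_add]; ring
    _ ≤ _ := by gcongr

theorem haar1 (m : ℕ) : (volume : Measure (ℝ × E m)).IsAddHaarMeasure := by
  change ((volume : Measure ℝ).prod (volume : Measure (E m))).IsAddHaarMeasure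
  infer_instance

theorem haar2 (m : ℕ) : (volume : Measure (Z m)).IsAddHaarMeasure := by
  have h1 : (volume : Measure (E m × ℝ)).IsAddHaarMeasure := by
    change ((volume : Measure (E m)).prod (volume : Measure ℝ)).IsAddHaarMeasure
    infer_instance
  change ((volume : Measure ℝ).prod (volume : Measure (E m × ℝ))).IsAddHaarMeasure
  infer_instance

/-- integral of the polynomial weight -/
theorem int_wt (m : ℕ) : ∃ C : ℝ, 0 ≤ C ∧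
    ∫⁻ x : Z m, ENNReal.ofReal (wt (m + 3) x) ≤ ENNReal.ofReal C := by
  have hfr : (Module.finrank ℝ (Z m) : ℝ) < (m : ℝ) + 3 := by
    simp [Z, E]
    linarith
  have := haar2 m
  have h := finite_integral_one_add_norm (μ := (volume : Measure (Z m))) hfr
  refine ⟨(∫⁻ x : Z m, ENNReal.ofReal ((1 + ‖x‖) ^ (-((m : ℝ) + 3)))).toReal,
    ENNReal.toReal_nonneg, ?_⟩
  rw [ENNReal.ofReal_toReal h.ne]
  apply le_of_eq
  apply lintegral_congr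
  intro x
  congr 1
  unfold wt
  rw [Real.rpow_neg (by positivity)]
  congr 1
  have : ((m : ℝ) + 3) = ((m + 3 : ℕ) : ℝ) := by push_cast; ring
  rw [this, Real.rpow_natCast]

/-- integral of the polynomial weight in one dimension less -/
theorem int_wt' (m : ℕ) : ∃ C : ℝ, 0 ≤ C ∧
    ∫⁻ x : ℝ × E m, ENNReal.ofReal (((1 + ‖x‖) ^ (m + 3))⁻¹) ≤ ENNReal.ofReal C := by
  have hfr : (Module.finrank ℝ (ℝ × E m) : ℝ) < (m : ℝ) + 3 := by
    simp [E]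
    linarith
  have := haar1 m
  have h := finite_integral_one_add_norm (μ := (volume : Measure (ℝ × E m))) hfr
  refine ⟨(∫⁻ x : ℝ × E m, ENNReal.ofReal ((1 + ‖x‖) ^ (-((m : ℝ) + 3)))).toReal,
    ENNReal.toReal_nonneg, ?_⟩
  rw [ENNReal.ofReal_toReal h.ne]
  apply le_of_eq
  apply lintegral_congr
  intro x
  congr 1
  rw [Real.rpow_neg (by positivity)]
  congr 1
  have : ((m : ℝ) + 3) = ((m + 3 : ℕ) : ℝ) := by push_cast; ring
  rw [this, Real.rpow_natCast]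

/-- the integral in the transversal direction -/
theorem int_line : ∃ C : ℝ, 0 ≤ C ∧ ∀ α β : ℝ, 0 < β →
    ∫⁻ t : ℝ, ENNReal.ofReal (((1 + |α + β * t|) ^ 2)⁻¹) ≤ ENNReal.ofReal (C * β⁻¹) := by
  have hfr : (Module.finrank ℝ ℝ : ℝ) < 2 := by simp
  have h0 := integrable_one_add_norm (μ := (volume : Measure ℝ)) hfr
  have h1 : Integrable (fun t : ℝ => ((1 + |t|) ^ 2)⁻¹) := by
    refine h0.congr (Filter.Eventually.of_forall fun t => ?_)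
    simp only [Real.norm_eq_abs]
    rw [Real.rpow_neg (by positivity)]
    congr 1
    norm_cast
  refine ⟨∫ t : ℝ, ((1 + |t|) ^ 2)⁻¹, integral_nonneg fun t => by positivity, ?_⟩
  intro α β hβ
  have h2 : Integrable (fun t : ℝ => ((1 + |α + t|) ^ 2)⁻¹) := h1.comp_add_left α
  have h3 : Integrable (fun t : ℝ => ((1 + |α + β * t|) ^ 2)⁻¹) := h2.comp_mul_left' hβ.ne'
  rw [← ofReal_integral_eq_lintegral_ofReal h3 (Filter.Eventually.of_forall fun t => by positivity)]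
  apply ENNReal.ofReal_le_ofReal
  rw [Measure.integral_comp_mul_left (fun t : ℝ => ((1 + |α + t|) ^ 2)⁻¹) β,
    integral_add_left_eq_self (fun t : ℝ => ((1 + |t|) ^ 2)⁻¹) α, abs_of_pos (by positivity),
    smul_eq_mul, mul_comm]

theorem int_slab (m : ℕ) : ∃ C : ℝ, 0 ≤ C ∧ ∀ (a0 w s : ℝ) (θ : E m), 0 < w → θ ≠ 0 →
    ∫⁻ x : Z m, ENNReal.ofReal (((1 + |a0 + w⁻¹ * (Lo (w • θ) s x).1|) ^ 2)⁻¹ * wt (m + 3) x) ≤
      ENNReal.ofReal (C * (w * ‖θ‖ ^ 2)⁻¹) := by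
  obtain ⟨C1, hC1, h1⟩ := int_wt' m
  obtain ⟨C2, hC2, h2⟩ := int_line
  refine ⟨C1 * C2, by positivity, ?_⟩
  intro a0 w s θ hw hθ
  have hθ0 : 0 < ‖θ‖ := norm_pos_iff.2 hθ
  set β : ℝ := w * ‖θ‖ ^ 2 with hβ
  have hβ0 : 0 < β := by positivity
  -- pointwise bound
  have key : ∀ (x1 : ℝ) (x2 : E m) (x3 : ℝ),
      ((1 + |a0 + w⁻¹ * (Lo (w • θ) s ((x1, x2, x3) : Z m)).1|) ^ 2)⁻¹ * wt (m + 3) ((x1, x2, x3) : Z m) ≤
      ((1 + ‖((x1, x2) : ℝ × E m)‖) ^ (m + 3))⁻¹ *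
        ((1 + |(a0 + w⁻¹ * (x1 + ⟪x2, w • θ⟫)) + β * x3|) ^ 2)⁻¹ := by
    intro x1 x2 x3
    have e1 : a0 + w⁻¹ * (Lo (w • θ) s ((x1, x2, x3) : Z m)).1 =
        (a0 + w⁻¹ * (x1 + ⟪x2, w • θ⟫)) + β * x3 := by
      have : (Lo (w • θ) s ((x1, x2, x3) : Z m)).1 = x1 + ⟪x2, w • θ⟫ + x3 * ‖w • θ‖ ^ 2 := rfl
      rw [this, norm_smul w θ, Real.norm_eq_abs, abs_of_pos hw, hβ]
      field_simp
      ring
    rw [e1, mul_comm]
    apply mul_le_mul_of_nonneg_right _ (by positivity)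
    unfold wt
    apply inv_anti₀ (by positivity)
    apply pow_le_pow_left₀ (by positivity)
    have : ‖((x1, x2) : ℝ × E m)‖ ≤ ‖((x1, x2, x3) : Z m)‖ := by
      rw [Prod.norm_def, Prod.norm_def, Prod.norm_def]
      apply max_le_max le_rfl (le_max_left _ _)
    linarith
  have hcont : Continuous (fun x : Z m => ((1 + |a0 + w⁻¹ * (Lo (w • θ) s x).1|) ^ 2)⁻¹ * wt (m + 3) x) := by
    unfold wt Lo
    apply Continuous.mul
    · apply Continuous.inv₀ (by fun_prop)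
      intro x; positivity
    · apply Continuous.inv₀ (by fun_prop)
      intro x; positivity
  have hm : Measurable (fun x : Z m => ENNReal.ofReal (((1 + |a0 + w⁻¹ * (Lo (w • θ) s x).1|) ^ 2)⁻¹ *
      wt (m + 3) x)) := hcont.measurable.ennreal_ofReal
  have hfub : ∫⁻ x : Z m, ENNReal.ofReal (((1 + |a0 + w⁻¹ * (Lo (w • θ) s x).1|) ^ 2)⁻¹ *
      wt (m + 3) x) = ∫⁻ x1 : ℝ, ∫⁻ x2 : E m, ∫⁻ x3 : ℝ,
        ENNReal.ofReal (((1 + |a0 + w⁻¹ * (Lo (w • θ) s ((x1, x2, x3) : Z m)).1|) ^ 2)⁻¹ *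
          wt (m + 3) ((x1, x2, x3) : Z m)) := by
    have v1 : (volume : Measure (Z m)) = (volume : Measure ℝ).prod (volume : Measure (E m × ℝ)) := rfl
    have v2 : (volume : Measure (E m × ℝ)) = (volume : Measure (E m)).prod (volume : Measure ℝ) := rfl
    rw [v1, lintegral_prod _ hm.aemeasurable]
    apply lintegral_congr
    intro x1
    rw [v2, lintegral_prod]
    exact (hm.comp measurable_prodMk_left).aemeasurable
  rw [hfub]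
  have hfub2 : ∫⁻ x1 : ℝ, ∫⁻ x2 : E m, ENNReal.ofReal (((1 + ‖((x1, x2) : ℝ × E m)‖) ^ (m + 3))⁻¹) =
      ∫⁻ x : ℝ × E m, ENNReal.ofReal (((1 + ‖x‖) ^ (m + 3))⁻¹) := by
    have v1 : (volume : Measure (ℝ × E m)) = (volume : Measure ℝ).prod (volume : Measure (E m)) := rfl
    rw [v1, lintegral_prod]
    apply Measurable.aemeasurable
    fun_prop
  calc ∫⁻ x1 : ℝ, ∫⁻ x2 : E m, ∫⁻ x3 : ℝ,
        ENNReal.ofReal (((1 + |a0 + w⁻¹ * (Lo (w • θ) s ((x1, x2, x3) : Z m)).1|) ^ 2)⁻¹ *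
          wt (m + 3) ((x1, x2, x3) : Z m))
      ≤ ∫⁻ x1 : ℝ, ∫⁻ x2 : E m, ENNReal.ofReal (C2 * β⁻¹) *
        ENNReal.ofReal (((1 + ‖((x1, x2) : ℝ × E m)‖) ^ (m + 3))⁻¹) := by
        apply lintegral_mono; intro x1
        apply lintegral_mono; intro x2
        calc ∫⁻ x3 : ℝ, ENNReal.ofReal (((1 + |a0 + w⁻¹ * (Lo (w • θ) s ((x1, x2, x3) : Z m)).1|) ^ 2)⁻¹ *
              wt (m + 3) ((x1, x2, x3) : Z m))
            ≤ ∫⁻ x3 : ℝ, ENNReal.ofReal (((1 + ‖((x1, x2) : ℝ × E m)‖) ^ (m + 3))⁻¹) *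
              ENNReal.ofReal (((1 + |(a0 + w⁻¹ * (x1 + ⟪x2, w • θ⟫)) + β * x3|) ^ 2)⁻¹) := by
              apply lintegral_mono; intro x3
              dsimp only
              rw [← ENNReal.ofReal_mul (by positivity)]
              exact ENNReal.ofReal_le_ofReal (key x1 x2 x3)
          _ = ENNReal.ofReal (((1 + ‖((x1, x2) : ℝ × E m)‖) ^ (m + 3))⁻¹) *
              ∫⁻ x3 : ℝ, ENNReal.ofReal (((1 + |(a0 + w⁻¹ * (x1 + ⟪x2, w • θ⟫)) + β * x3|) ^ 2)⁻¹) := by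
              rw [lintegral_const_mul]
              fun_prop
          _ ≤ ENNReal.ofReal (((1 + ‖((x1, x2) : ℝ × E m)‖) ^ (m + 3))⁻¹) *
              ENNReal.ofReal (C2 * β⁻¹) := by
              gcongr
              exact h2 _ β hβ0
          _ = _ := mul_comm _ _
    _ = ENNReal.ofReal (C2 * β⁻¹) * ∫⁻ x1 : ℝ, ∫⁻ x2 : E m,
        ENNReal.ofReal (((1 + ‖((x1, x2) : ℝ × E m)‖) ^ (m + 3))⁻¹) := by
        rw [← lintegral_const_mul]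
        · apply lintegral_congr; intro x1
          rw [lintegral_const_mul]
          fun_prop
        · apply Measurable.lintegral_prod_right'
            (f := fun x : ℝ × E m => ENNReal.ofReal (((1 + ‖x‖) ^ (m + 3))⁻¹))
          fun_prop
    _ ≤ ENNReal.ofReal (C2 * β⁻¹) * ENNReal.ofReal C1 := by
        rw [hfub2]
        gcongr
    _ = ENNReal.ofReal (C1 * C2 * β⁻¹) := by
        rw [← ENNReal.ofReal_mul (by positivity)]
        congr 1; ring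

theorem pf_DI1 (hWWS : T_WWS) (hLOI : T_LOI) (hLOA : T_LOA) : T_DI1 := by
  intro m N N₂ hm hN hN₂
  obtain ⟨C1, hC1, h1⟩ := int_wt m
  obtain ⟨C2, hC2, h2⟩ := int_slab m
  set B : ℝ := 2 * 57 ^ N * 15 ^ N with hB
  have hB0 : 0 ≤ B := by positivity
  refine ⟨B * (C1 + C2) + 1, by nlinarith [mul_nonneg hB0 (add_nonneg hC1 hC2)], ?_⟩
  intro R δ w K η W u hR hδ hw hwR hK hη hc hKθ
  have hw0 : 0 < w := by linarith
  have hK0 : 0 < K := by linarith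
  set θ : E m := ctr (sR R) W.1 - η with hθd
  have hθ0 : 0 < ‖θ‖ := lt_of_lt_of_le (by positivity) hKθ
  have hθn : θ ≠ 0 := norm_pos_iff.1 hθ0
  set a0 : ℝ := (R ^ δ / w) * (fc R δ W.1 u - zc W.2).1 with ha0
  set U : ℝ := ww N R δ (w ^ 2) W u with hU
  have hU0 : 0 ≤ U := by rw [hU]; unfold ww; positivity
  set Φ : Z m → ℝ≥0∞ := fun x => ENNReal.ofReal (B * U * ((w⁻¹ + ((1 + |a0 +
        w⁻¹ * (Lo (w • θ) (w * sR R) x).1|) ^ 2)⁻¹) * wt (m + 3) x)) with hΦ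
  have step1 : ∫⁻ y, ENNReal.ofReal (ww N R δ w W y * wt N₂ (Lo η w⁻¹ (y - u))) ≤
      ∫⁻ y, Φ (Lo η w⁻¹ (y - u)) := by
    apply lintegral_mono; intro y
    exact ENNReal.ofReal_le_ofReal (pointwise hLOA N N₂ hN hN₂ R δ w η W u y hR hδ hw hwR hη hc)
  have hhaar := haar2 m
  have step2 : ∫⁻ y, Φ (Lo η w⁻¹ (y - u)) = ENNReal.ofReal (w ^ (m + 2)) * ∫⁻ x, Φ x := by
    rw [lintegral_sub_right_eq_self (fun y => Φ (Lo η w⁻¹ y)) u,
      ((hLOI m η w⁻¹ (by positivity)).1 Φ), inv_inv]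
  have step3 : ∫⁻ x, Φ x ≤ ENNReal.ofReal (B * U) * (ENNReal.ofReal (w⁻¹ * C1) +
      ENNReal.ofReal (C2 * (w * ‖θ‖ ^ 2)⁻¹)) := by
    have e1 : ∀ x, Φ x = ENNReal.ofReal (B * U) * (ENNReal.ofReal w⁻¹ * ENNReal.ofReal (wt (m + 3) x) +
        ENNReal.ofReal (((1 + |a0 + w⁻¹ * (Lo (w • θ) (w * sR R) x).1|) ^ 2)⁻¹ * wt (m + 3) x)) := by
      intro x
      have pw : 0 ≤ wt (m + 3) x := by unfold wt; positivity
      rw [hΦ]
      dsimp only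
      rw [← ENNReal.ofReal_mul (by positivity), ← ENNReal.ofReal_add (by positivity) (by positivity),
        ← ENNReal.ofReal_mul (by positivity), add_mul]
    rw [lintegral_congr e1, lintegral_const_mul' _ _ ENNReal.ofReal_ne_top]
    gcongr
    rw [lintegral_add_left]
    · gcongr
      · rw [lintegral_const_mul' _ _ ENNReal.ofReal_ne_top, ENNReal.ofReal_mul (by positivity)]
        gcongr
      · exact h2 a0 w (w * sR R) θ hw0 hθn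
    · unfold wt
      fun_prop
  have hθK : (w * ‖θ‖ ^ 2)⁻¹ ≤ K ^ 2 * w⁻¹ := by
    rw [mul_inv, mul_comm]
    apply mul_le_mul_of_nonneg_right _ (by positivity)
    rw [inv_le_comm₀ (by positivity) (by positivity), ← inv_pow]
    exact pow_le_pow_left₀ (by positivity) hKθ 2
  refine (step1.trans (le_of_eq step2)).trans ?_
  calc ENNReal.ofReal (w ^ (m + 2)) * ∫⁻ x, Φ x
      ≤ ENNReal.ofReal (w ^ (m + 2)) * (ENNReal.ofReal (B * U) * (ENNReal.ofReal (w⁻¹ * C1) +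
        ENNReal.ofReal (C2 * (w * ‖θ‖ ^ 2)⁻¹))) := by gcongr
    _ = ENNReal.ofReal (w ^ (m + 2) * (B * U * (w⁻¹ * C1 + C2 * (w * ‖θ‖ ^ 2)⁻¹))) := by
        rw [← ENNReal.ofReal_add (by positivity) (by positivity), ← ENNReal.ofReal_mul (by positivity),
          ← ENNReal.ofReal_mul (by positivity)]
    _ ≤ _ := by
        apply ENNReal.ofReal_le_ofReal
        have g1 : w⁻¹ * C1 + C2 * (w * ‖θ‖ ^ 2)⁻¹ ≤ (C1 + C2) * (K ^ 2 * w⁻¹) := by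
          have g2 : w⁻¹ * C1 ≤ C1 * (K ^ 2 * w⁻¹) := by
            have : 1 ≤ K ^ 2 := one_le_pow₀ hK
            calc w⁻¹ * C1 = C1 * (1 * w⁻¹) := by ring
              _ ≤ _ := by gcongr
          have g3 : C2 * (w * ‖θ‖ ^ 2)⁻¹ ≤ C2 * (K ^ 2 * w⁻¹) := by gcongr
          linarith
        have g4 : w ^ (m + 2) * w⁻¹ = w ^ (m + 1) := by
          rw [pow_succ w (m + 1), mul_assoc, mul_inv_cancel₀ hw0.ne', mul_one]
        calc w ^ (m + 2) * (B * U * (w⁻¹ * C1 + C2 * (w * ‖θ‖ ^ 2)⁻¹))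
            ≤ w ^ (m + 2) * (B * U * ((C1 + C2) * (K ^ 2 * w⁻¹))) := by gcongr
          _ = B * (C1 + C2) * K ^ 2 * (w ^ (m + 2) * w⁻¹) * U := by ring
          _ = B * (C1 + C2) * K ^ 2 * w ^ (m + 1) * U := by rw [g4]
          _ ≤ (B * (C1 + C2) + 1) * K ^ 2 * w ^ (m + 1) * U := by
              gcongr
              linarith

end Pool.Agent.H26.B2.DI1
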