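import Pool.Agent.H88.B2.Targets

/-!
MP_ee74d2_an, board bpd_modules, row WWS: slow variation of the weights.
-/

set_option autoImplicit false

namespace Pool.Agent.H26.B2.WWS

open MeasureTheory Set
open Pool.Agent.H83.G Pool.Agent.H88.B2
open scoped ENNReal NNReal RealInnerProductSpace

variable {m : ℕ}

theorem inv_slow (N : ℕ) {a a' D ρ : ℝ} (ha : 0 ≤ a) (ha' : 0 ≤ a') (hD : 1 ≤ D) (hρ : 0 ≤ ρ)
    (h : a' ≤ a + D * ρ) :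
    ((1 + a) ^ N)⁻¹ ≤ D ^ N * (1 + ρ) ^ N * ((1 + a') ^ N)⁻¹ := by
  have h1 : 1 + a' ≤ D * (1 + ρ) * (1 + a) := by nlinarith [mul_nonneg (by linarith : 0 ≤ D) (mul_nonneg hρ ha), mul_nonneg (by linarith : 0 ≤ D - 1) ha]
  have h2 : (1 + a') ^ N ≤ D ^ N * (1 + ρ) ^ N * (1 + a) ^ N := by
    rw [← mul_pow, ← mul_pow]
    exact pow_le_pow_left₀ (by linarith) h1 N
  have p1 : 0 < (1 + a) ^ N := by positivity
  have p2 : 0 < (1 + a') ^ N := by positivity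
  rw [← div_eq_mul_inv, le_div_iff₀ p2, inv_mul_le_iff₀ p1]
  linarith

/-- the three components of a vector -/
theorem comp_le (x : Z m) : |x.1| ≤ ‖x‖ ∧ ‖x.2.1‖ ≤ ‖x‖ ∧ |x.2.2| ≤ ‖x‖ := by
  refine ⟨?_, ?_, ?_⟩
  · rw [← Real.norm_eq_abs]; exact norm_fst_le x
  · exact (norm_fst_le x.2).trans (norm_snd_le x)
  · rw [← Real.norm_eq_abs]; exact (norm_snd_le x.2).trans (norm_snd_le x)

theorem Lo1_le (η : E m) (s : ℝ) (x : Z m) :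
    |(Lo η s x).1| ≤ |x.1| + ‖x.2.1‖ * ‖η‖ + |x.2.2| * ‖η‖ ^ 2 := by
  have h : (Lo η s x).1 = x.1 + ⟪x.2.1, η⟫ + x.2.2 * ‖η‖ ^ 2 := rfl
  rw [h]
  have h1 := abs_real_inner_le_norm x.2.1 η
  have h2 : |x.2.2 * ‖η‖ ^ 2| = |x.2.2| * ‖η‖ ^ 2 := by
    rw [abs_mul, abs_of_nonneg (by positivity : 0 ≤ ‖η‖ ^ 2)]
  have h3 := abs_add_le (x.1 + ⟪x.2.1, η⟫) (x.2.2 * ‖η‖ ^ 2)
  have h4 := abs_add_le x.1 ⟪x.2.1, η⟫
  linarith

theorem Lo2_le (η : E m) (s : ℝ) (hs : 0 ≤ s) (x : Z m) :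
    ‖(Lo η s x).2.1‖ ≤ s * (‖x.2.1‖ + 2 * |x.2.2| * ‖η‖) := by
  have h : (Lo η s x).2.1 = s • (x.2.1 + (2 * x.2.2) • η) := rfl
  rw [h, norm_smul, Real.norm_eq_abs, abs_of_nonneg hs]
  apply mul_le_mul_of_nonneg_left _ hs
  refine (norm_add_le _ _).trans ?_
  rw [norm_smul, Real.norm_eq_abs, abs_mul, abs_of_nonneg (by norm_num : (0 : ℝ) ≤ 2)]

theorem Lo3_eq (η : E m) (s : ℝ) (x : Z m) : |(Lo η s x).2.2| = s ^ 2 * |x.2.2| := by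
  have h : (Lo η s x).2.2 = s ^ 2 * x.2.2 := rfl
  rw [h, abs_mul, abs_of_nonneg (by positivity : 0 ≤ s ^ 2)]

theorem sR_pos {R : ℝ} (hR : 1 ≤ R) : 0 < sR R := by
  unfold sR
  have : 0 < Real.sqrt R := Real.sqrt_pos.2 (by linarith)
  positivity

theorem sR_le_inv {R w : ℝ} (hw : 0 < w) (h : w ≤ Real.sqrt R) : sR R ≤ w⁻¹ := by
  unfold sR
  exact inv_anti₀ hw h

theorem sR_le_one {R : ℝ} (hR : 1 ≤ R) : sR R ≤ 1 := by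
  have := sR_le_inv (R := R) one_pos (Real.one_le_sqrt.2 hR)
  simpa using this

theorem rpow_neg_le_one {R δ : ℝ} (hR : 1 ≤ R) (hδ : 0 ≤ δ) : R ^ (-δ) ≤ 1 :=
  Real.rpow_le_one_of_one_le_of_nonpos hR (by linarith)

theorem fc_sub (hLOA : T_LOA) (R δ : ℝ) (k : Fin m → ℤ) (z z' : Z m) :
    fc R δ k z - fc R δ k z' = R ^ (-δ) • Lo (ctr (sR R) k) (sR R) (z - z') := by
  unfold fc
  rw [((hLOA m).1 _ _ z z').2.1, smul_sub]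

/-- part 1 -/
theorem part1 (hLOA : T_LOA) (N : ℕ) (R δ w : ℝ) (W : Pk m) (z z' : Z m) (hR : 1 ≤ R)
    (hδ : 0 ≤ δ) (hw : 0 < w) (hwR : w ≤ Real.sqrt R) (hc : ‖ctr (sR R) W.1‖ ≤ 3) :
    ww N R δ w W z ≤ 16 ^ (2 * N) * (1 + ‖w⁻¹ • (z - z')‖) ^ (2 * N) * ww N R δ w W z' := by
  set x := z - z' with hx
  set ρ := ‖w⁻¹ • x‖ with hρ
  have hρ' : ρ = w⁻¹ * ‖x‖ := by
    rw [hρ, norm_smul, Real.norm_eq_abs, abs_of_pos (by positivity)]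
  have hρ0 : 0 ≤ ρ := norm_nonneg _
  have hR0 : 0 < R := by linarith
  have hd := fc_sub hLOA R δ W.1 z z'
  rw [← hx] at hd
  obtain ⟨c1, c2, c3⟩ := comp_le x
  have hx0 : 0 ≤ ‖x‖ := norm_nonneg x
  have hn0 : 0 ≤ ‖ctr (sR R) W.1‖ := norm_nonneg _
  -- first factor
  have k1 : |(R ^ δ / w) * (fc R δ W.1 z' - zc W.2).1| ≤
      |(R ^ δ / w) * (fc R δ W.1 z - zc W.2).1| + 16 * ρ := by
    have e1 : (R ^ δ / w) * (fc R δ W.1 z' - zc W.2).1 =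
        (R ^ δ / w) * (fc R δ W.1 z - zc W.2).1 - w⁻¹ * (Lo (ctr (sR R) W.1) (sR R) x).1 := by
      have : (fc R δ W.1 z - zc W.2).1 - (fc R δ W.1 z' - zc W.2).1 =
          R ^ (-δ) * (Lo (ctr (sR R) W.1) (sR R) x).1 := by
        have h0 := congrArg Prod.fst hd
        simp only [Prod.fst_sub, Prod.smul_fst, smul_eq_mul] at h0 ⊢
        linarith
      have h3 : R ^ δ * R ^ (-δ) = 1 := by
        rw [← Real.rpow_add hR0]; simp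
      have h4 : (fc R δ W.1 z' - zc W.2).1 = (fc R δ W.1 z - zc W.2).1 -
          R ^ (-δ) * (Lo (ctr (sR R) W.1) (sR R) x).1 := by linarith
      rw [h4, mul_sub]
      congr 1
      calc R ^ δ / w * (R ^ (-δ) * (Lo (ctr (sR R) W.1) (sR R) x).1)
          = (R ^ δ * R ^ (-δ)) * w⁻¹ * (Lo (ctr (sR R) W.1) (sR R) x).1 := by
            rw [div_eq_mul_inv]; ring
        _ = _ := by rw [h3, one_mul]
    rw [e1]
    have e2 := abs_sub ((R ^ δ / w) * (fc R δ W.1 z - zc W.2).1)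
      (w⁻¹ * (Lo (ctr (sR R) W.1) (sR R) x).1)
    have e3 : |w⁻¹ * (Lo (ctr (sR R) W.1) (sR R) x).1| ≤ 16 * ρ := by
      rw [abs_mul, abs_of_pos (by positivity : 0 < w⁻¹), hρ']
      have e4 := Lo1_le (ctr (sR R) W.1) (sR R) x
      have e5 : |(Lo (ctr (sR R) W.1) (sR R) x).1| ≤ 16 * ‖x‖ := by
        have h5 : ‖x.2.1‖ * ‖ctr (sR R) W.1‖ ≤ ‖x‖ * 3 := mul_le_mul c2 hc hn0 hx0
        have h6 : |x.2.2| * ‖ctr (sR R) W.1‖ ^ 2 ≤ ‖x‖ * 9 := by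
          apply mul_le_mul c3 _ (by positivity) hx0
          nlinarith
        linarith
      calc w⁻¹ * |(Lo (ctr (sR R) W.1) (sR R) x).1| ≤ w⁻¹ * (16 * ‖x‖) :=
            mul_le_mul_of_nonneg_left e5 (by positivity)
        _ = 16 * (w⁻¹ * ‖x‖) := by ring
    linarith
  -- second factor
  have k2 : ‖(fc R δ W.1 z' - zc W.2).2‖ ≤ ‖(fc R δ W.1 z - zc W.2).2‖ + 16 * ρ := by
    have e1 : (fc R δ W.1 z' - zc W.2).2 = (fc R δ W.1 z - zc W.2).2 -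
        R ^ (-δ) • (Lo (ctr (sR R) W.1) (sR R) x).2 := by
      have h0 := congrArg Prod.snd hd
      simp only [Prod.snd_sub, Prod.smul_snd] at h0 ⊢
      rw [← h0]; abel
    rw [e1]
    refine (norm_sub_le _ _).trans ?_
    gcongr
    rw [norm_smul, Real.norm_eq_abs, abs_of_nonneg (by positivity)]
    have h1 := rpow_neg_le_one hR hδ
    have h2 : ‖(Lo (ctr (sR R) W.1) (sR R) x).2‖ ≤ 16 * ρ := by
      have s0 := (sR_pos hR).le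
      have s1 := sR_le_one hR
      have s2 := sR_le_inv hw hwR
      rw [hρ']
      have g0 : sR R * ‖x‖ ≤ w⁻¹ * ‖x‖ := mul_le_mul_of_nonneg_right s2 hx0
      have gg : 0 ≤ sR R * ‖x‖ := by positivity
      rw [Prod.norm_def]
      apply max_le
      · refine (Lo2_le _ _ s0 x).trans ?_
        have h7 : ‖x.2.1‖ + 2 * |x.2.2| * ‖ctr (sR R) W.1‖ ≤ 7 * ‖x‖ := by
          have : |x.2.2| * ‖ctr (sR R) W.1‖ ≤ ‖x‖ * 3 := mul_le_mul c3 hc hn0 hx0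
          linarith
        have h8 : sR R * (‖x.2.1‖ + 2 * |x.2.2| * ‖ctr (sR R) W.1‖) ≤ sR R * (7 * ‖x‖) :=
          mul_le_mul_of_nonneg_left h7 s0
        linarith
      · rw [Real.norm_eq_abs, Lo3_eq]
        have h9 : sR R ^ 2 * |x.2.2| ≤ sR R * ‖x‖ := by
          apply mul_le_mul _ c3 (abs_nonneg _) s0
          nlinarith
        linarith
    calc R ^ (-δ) * ‖(Lo (ctr (sR R) W.1) (sR R) x).2‖
        ≤ 1 * ‖(Lo (ctr (sR R) W.1) (sR R) x).2‖ :=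
          mul_le_mul_of_nonneg_right h1 (norm_nonneg _)
      _ ≤ _ := by rw [one_mul]; exact h2
  have i1 := inv_slow N (abs_nonneg _) (abs_nonneg _) (by norm_num : (1 : ℝ) ≤ 16) hρ0 k1
  have i2 := inv_slow N (norm_nonneg _) (norm_nonneg _) (by norm_num : (1 : ℝ) ≤ 16) hρ0 k2
  unfold ww
  refine (mul_le_mul i1 i2 (by positivity) (by positivity)).trans (le_of_eq ?_)
  rw [two_mul, pow_add, pow_add]
  ring

/-- the components of `Lt` -/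
theorem Lt_norm_ge (η : E m) (w : ℝ) (x : Z m) (hη : ‖η‖ ≤ 4) (hw : 1 ≤ w) :
    ‖(w ^ 2)⁻¹ • x‖ ≤ 60 * ‖Lt η w x‖ := by
  set ρ := ‖Lt η w x‖ with hρ
  have hw0 : 0 < w := by linarith
  have hwi : w⁻¹ ≤ 1 := inv_le_one_of_one_le₀ hw
  have hwi0 : 0 < w⁻¹ := by positivity
  have hρ0 : 0 ≤ ρ := norm_nonneg _
  have hη0 : 0 ≤ ‖η‖ := norm_nonneg _
  obtain ⟨c1, c2, c3⟩ := comp_le (Lt η w x)
  rw [← hρ] at c1 c2 c3
  have d1 : (Lt η w x).1 = w⁻¹ * (x.1 + ⟪x.2.1, η⟫ + x.2.2 * ‖η‖ ^ 2) := rfl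
  have d2 : (Lt η w x).2.1 = w⁻¹ • (x.2.1 + (2 * x.2.2) • η) := rfl
  have d3 : (Lt η w x).2.2 = w⁻¹ ^ 2 * x.2.2 := rfl
  have q3 : w⁻¹ ^ 2 * |x.2.2| ≤ ρ := by
    rw [d3, abs_mul, abs_of_nonneg (by positivity : 0 ≤ w⁻¹ ^ 2)] at c3
    exact c3
  have q2 : w⁻¹ ^ 2 * ‖x.2.1‖ ≤ 9 * ρ := by
    have e1 : x.2.1 = (x.2.1 + (2 * x.2.2) • η) - (2 * x.2.2) • η := by abel
    have e2 : ‖x.2.1‖ ≤ ‖x.2.1 + (2 * x.2.2) • η‖ + 2 * |x.2.2| * ‖η‖ := by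
      have := norm_sub_le (x.2.1 + (2 * x.2.2) • η) ((2 * x.2.2) • η)
      rw [← e1, norm_smul, Real.norm_eq_abs, abs_mul, abs_of_nonneg (by norm_num : (0 : ℝ) ≤ 2)]
        at this
      exact this
    rw [d2, norm_smul, Real.norm_eq_abs, abs_of_pos hwi0] at c2
    have e3 : w⁻¹ ^ 2 * ‖x.2.1 + (2 * x.2.2) • η‖ ≤ ρ := by
      calc w⁻¹ ^ 2 * ‖x.2.1 + (2 * x.2.2) • η‖ = w⁻¹ * (w⁻¹ * ‖x.2.1 + (2 * x.2.2) • η‖) := by ring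
        _ ≤ 1 * (w⁻¹ * ‖x.2.1 + (2 * x.2.2) • η‖) :=
          mul_le_mul_of_nonneg_right hwi (by positivity)
        _ ≤ ρ := by rw [one_mul]; exact c2
    have e4 : w⁻¹ ^ 2 * |x.2.2| * ‖η‖ ≤ ρ * 4 := mul_le_mul q3 hη hη0 hρ0
    have e5 : w⁻¹ ^ 2 * ‖x.2.1‖ ≤ w⁻¹ ^ 2 * (‖x.2.1 + (2 * x.2.2) • η‖ + 2 * |x.2.2| * ‖η‖) :=
      mul_le_mul_of_nonneg_left e2 (by positivity)
    nlinarith
  have q1 : w⁻¹ ^ 2 * |x.1| ≤ 53 * ρ := by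
    have e0 : |x.1| ≤ |x.1 + ⟪x.2.1, η⟫ + x.2.2 * ‖η‖ ^ 2| + ‖x.2.1‖ * ‖η‖ +
        |x.2.2| * ‖η‖ ^ 2 := by
      have h1 := abs_real_inner_le_norm x.2.1 η
      have h2 : |x.2.2 * ‖η‖ ^ 2| = |x.2.2| * ‖η‖ ^ 2 := by
        rw [abs_mul, abs_of_nonneg (by positivity : 0 ≤ ‖η‖ ^ 2)]
      have h3 : x.1 = (x.1 + ⟪x.2.1, η⟫ + x.2.2 * ‖η‖ ^ 2) - ⟪x.2.1, η⟫ - x.2.2 * ‖η‖ ^ 2 := by
        ring
      have h4 := abs_sub ((x.1 + ⟪x.2.1, η⟫ + x.2.2 * ‖η‖ ^ 2) - ⟪x.2.1, η⟫) (x.2.2 * ‖η‖ ^ 2)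
      have h5 := abs_sub (x.1 + ⟪x.2.1, η⟫ + x.2.2 * ‖η‖ ^ 2) ⟪x.2.1, η⟫
      rw [← h3] at h4
      linarith
    rw [d1, abs_mul, abs_of_pos hwi0] at c1
    have e3 : w⁻¹ ^ 2 * |x.1 + ⟪x.2.1, η⟫ + x.2.2 * ‖η‖ ^ 2| ≤ ρ := by
      calc w⁻¹ ^ 2 * |x.1 + ⟪x.2.1, η⟫ + x.2.2 * ‖η‖ ^ 2|
          = w⁻¹ * (w⁻¹ * |x.1 + ⟪x.2.1, η⟫ + x.2.2 * ‖η‖ ^ 2|) := by ring
        _ ≤ 1 * (w⁻¹ * |x.1 + ⟪x.2.1, η⟫ + x.2.2 * ‖η‖ ^ 2|) :=
          mul_le_mul_of_nonneg_right hwi (by positivity)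
        _ ≤ ρ := by rw [one_mul]; exact c1
    have e4 : w⁻¹ ^ 2 * |x.2.2| * ‖η‖ ^ 2 ≤ ρ * 16 := by
      apply mul_le_mul q3 _ (by positivity) hρ0
      nlinarith
    have e6 : w⁻¹ ^ 2 * ‖x.2.1‖ * ‖η‖ ≤ 9 * ρ * 4 := mul_le_mul q2 hη hη0 (by positivity)
    have e5 := mul_le_mul_of_nonneg_left e0 (by positivity : 0 ≤ w⁻¹ ^ 2)
    nlinarith
  rw [norm_smul, Real.norm_eq_abs, abs_of_pos (by positivity), ← inv_pow]
  rw [Prod.norm_def, Prod.norm_def, Real.norm_eq_abs, Real.norm_eq_abs]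
  rcases max_cases |x.1| (max ‖x.2.1‖ |x.2.2|) with ⟨h, _⟩ | ⟨h, _⟩
  · rw [h]; linarith
  · rw [h]
    rcases max_cases ‖x.2.1‖ |x.2.2| with ⟨h, _⟩ | ⟨h, _⟩
    · rw [h]; linarith
    · rw [h]; linarith

/-- part 4 -/
theorem part4 (η : E m) (w : ℝ) (x : Z m) (hη : ‖η‖ ≤ 4) (hw : 1 ≤ w) :
    ‖Lt η w x‖ ≤ 25 * ‖w⁻¹ • x‖ ∧ ‖Lt η w x‖ ≤ ‖Lo η w⁻¹ x‖ := by
  have hw0 : 0 < w := by linarith
  have hwi : w⁻¹ ≤ 1 := inv_le_one_of_one_le₀ hw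
  have hwi0 : 0 < w⁻¹ := by positivity
  have hη0 : 0 ≤ ‖η‖ := norm_nonneg _
  have hx0 : 0 ≤ ‖x‖ := norm_nonneg _
  obtain ⟨c1, c2, c3⟩ := comp_le x
  have d1 : (Lt η w x).1 = w⁻¹ * (Lo η w⁻¹ x).1 := rfl
  have d2 : (Lt η w x).2 = (Lo η w⁻¹ x).2 := rfl
  constructor
  · rw [norm_smul, Real.norm_eq_abs, abs_of_pos hwi0]
    rw [Prod.norm_def, d1, d2, Prod.norm_def]
    apply max_le
    · rw [Real.norm_eq_abs, abs_mul, abs_of_pos hwi0]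
      have e4 := Lo1_le η w⁻¹ x
      have h5 : ‖x.2.1‖ * ‖η‖ ≤ ‖x‖ * 4 := mul_le_mul c2 hη hη0 hx0
      have h6 : |x.2.2| * ‖η‖ ^ 2 ≤ ‖x‖ * 16 := by
        apply mul_le_mul c3 _ (by positivity) hx0
        nlinarith
      have h7 : |(Lo η w⁻¹ x).1| ≤ 25 * ‖x‖ := by linarith
      calc w⁻¹ * |(Lo η w⁻¹ x).1| ≤ w⁻¹ * (25 * ‖x‖) := mul_le_mul_of_nonneg_left h7 hwi0.le
        _ = _ := by ring
    · apply max_le
      · refine (Lo2_le η w⁻¹ hwi0.le x).trans ?_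
        have h7 : |x.2.2| * ‖η‖ ≤ ‖x‖ * 4 := mul_le_mul c3 hη hη0 hx0
        have h8 : ‖x.2.1‖ + 2 * |x.2.2| * ‖η‖ ≤ 25 * ‖x‖ := by linarith
        calc w⁻¹ * (‖x.2.1‖ + 2 * |x.2.2| * ‖η‖) ≤ w⁻¹ * (25 * ‖x‖) :=
              mul_le_mul_of_nonneg_left h8 hwi0.le
          _ = _ := by ring
      · rw [Real.norm_eq_abs, Lo3_eq]
        have h9 : w⁻¹ ^ 2 * |x.2.2| ≤ w⁻¹ * ‖x‖ := by
          apply mul_le_mul _ c3 (abs_nonneg _) hwi0.le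
          nlinarith
        have : 0 ≤ w⁻¹ * ‖x‖ := by positivity
        linarith
  · rw [Prod.norm_def, Prod.norm_def, d1, d2]
    apply max_le_max _ le_rfl
    rw [Real.norm_eq_abs, Real.norm_eq_abs, abs_mul, abs_of_pos hwi0]
    calc w⁻¹ * |(Lo η w⁻¹ x).1| ≤ 1 * |(Lo η w⁻¹ x).1| :=
          mul_le_mul_of_nonneg_right hwi (abs_nonneg _)
      _ = _ := one_mul _

theorem pf_WWS (hLOA : T_LOA) (hLOB : T_LOB) : T_WWS := by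
  intro m N
  have h16 : (1 : ℝ) ≤ 16 ^ (2 * N) := one_le_pow₀ (by norm_num)
  have h60 : (1 : ℝ) ≤ 60 ^ (2 * N) := one_le_pow₀ (by norm_num)
  have h1660 : (1 : ℝ) ≤ 16 ^ (2 * N) * 60 ^ (2 * N) := one_le_mul_of_one_le_of_one_le h16 h60
  refine ⟨25 * (16 ^ (2 * N) * 60 ^ (2 * N)), by linarith, ?_, ?_, ?_, ?_⟩
  · intro R δ w W z z' hR hδ hw hwR hc
    refine (part1 hLOA N R δ w W z z' hR hδ hw hwR hc).trans ?_
    have p : 0 ≤ ww N R δ w W z' := by unfold ww; positivity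
    gcongr
    nlinarith
  · intro R δ w η W z z' hR hδ hw hwR hη hc
    have hw0 : 0 < w := by linarith
    refine (part1 hLOA N R δ (w ^ 2) W z z' hR hδ (by positivity) hwR hc).trans ?_
    have p : 0 ≤ ww N R δ (w ^ 2) W z' := by unfold ww; positivity
    apply mul_le_mul_of_nonneg_right _ p
    have g := Lt_norm_ge η w (z - z') hη hw
    have g2 : (1 + ‖(w ^ 2)⁻¹ • (z - z')‖) ^ (2 * N) ≤
        60 ^ (2 * N) * (1 + ‖Lt η w (z - z')‖) ^ (2 * N) := by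
      rw [← mul_pow]
      apply pow_le_pow_left₀ (by positivity)
      linarith [norm_nonneg (Lt η w (z - z'))]
    have p0 : (0 : ℝ) ≤ 16 ^ (2 * N) := by positivity
    have p1 : 0 ≤ 16 ^ (2 * N) * (60 ^ (2 * N) * (1 + ‖Lt η w (z - z')‖) ^ (2 * N)) := by
      positivity
    calc (16 : ℝ) ^ (2 * N) * (1 + ‖(w ^ 2)⁻¹ • (z - z')‖) ^ (2 * N)
        ≤ 16 ^ (2 * N) * (60 ^ (2 * N) * (1 + ‖Lt η w (z - z')‖) ^ (2 * N)) :=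
          mul_le_mul_of_nonneg_left g2 p0
      _ ≤ 25 * (16 ^ (2 * N) * (60 ^ (2 * N) * (1 + ‖Lt η w (z - z')‖) ^ (2 * N))) := by
          linarith
      _ = _ := by ring
  · intro R δ w η W z z' hR hδ hw hwR hc
    have hw0 : 0 < w := by linarith
    have b := ((hLOB m 4 (by norm_num)).2.2.1) η (ctr (sR R) W.1) w⁻¹ (sR R) (z - z')
      (sR_pos hR) (sR_le_inv hw0 hwR) hc
    have k : ‖fc R δ W.1 z' - zc W.2‖ ≤ ‖fc R δ W.1 z - zc W.2‖ +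
        25 * ‖Lo η w⁻¹ (z - z')‖ := by
      have e1 : fc R δ W.1 z' - zc W.2 = (fc R δ W.1 z - zc W.2) -
          (fc R δ W.1 z - fc R δ W.1 z') := by abel
      rw [e1, fc_sub hLOA]
      refine (norm_sub_le _ _).trans ?_
      gcongr
      rw [norm_smul, Real.norm_eq_abs, abs_of_nonneg (by positivity)]
      calc R ^ (-δ) * ‖Lo (ctr (sR R) W.1) (sR R) (z - z')‖
          ≤ 1 * ‖Lo (ctr (sR R) W.1) (sR R) (z - z')‖ :=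
            mul_le_mul_of_nonneg_right (rpow_neg_le_one hR hδ) (norm_nonneg _)
        _ ≤ _ := by rw [one_mul]; refine b.trans (le_of_eq ?_); norm_num
    have i := inv_slow N (norm_nonneg _) (norm_nonneg _) (by norm_num : (1 : ℝ) ≤ 25)
      (norm_nonneg _) k
    unfold wt
    refine i.trans ?_
    gcongr
    have h25 : (25 : ℝ) ^ N ≤ 16 ^ (2 * N) := by
      rw [pow_mul]
      exact pow_le_pow_left₀ (by norm_num) (by norm_num) N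
    nlinarith
  · intro η w x hη hw
    obtain ⟨a, b⟩ := part4 η w x hη hw
    refine ⟨a.trans ?_, b⟩
    gcongr
    linarith

end Pool.Agent.H26.B2.WWS
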